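import Pool.Agent.H17.MW1

namespace Pool.Agent.Results.MP_bfa999_lc.DimTwo
open Pool.Agent.H17.MW

theorem result (F : Type) [Field F] [Fintype F] :
    ∀ m n : ℕ, MWS F 2 m n ↔ Fintype.card F * (Fintype.card F + 1) / 2 ≤ min m n :=
  two

end Pool.Agent.Results.MP_bfa999_lc.DimTwo
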