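import Pool.Agent.H17.MW1

namespace Pool.Agent.Results.MP_bfa999_lc.HalfBound
open Pool.Agent.H17.MW

theorem result (F : Type) [Field F] [Fintype F] :
    ∀ k m n : ℕ, 2 ≤ k → MWS F k m n →
      Fintype.card F * N (Fintype.card F) k ≤ 2 * min m n :=
  fun _ _ _ hk h => lower hk h

end Pool.Agent.Results.MP_bfa999_lc.HalfBound
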